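import Pool.Agent.H51.Homog.Equality
import Pool.Agent.H51.Homog.Example

/-!
# Homogeneous latin squares with many intercalates

The definitions (`IsLatin`, `intercalatesAt`, `IsHomogeneous`) are in `Pool.Agent.H51.Homog.Defs`.

The spectrum of `(n - k)`-homogeneous latin squares of order `n` is determined in the region
`8 (k - 1) ≤ n`.  In particular, for `k ≥ 2` every such order satisfies `n ≤ 8 (k - 1)`, and
equality holds exactly when `k - 1 = 2 ^ i` with `i ≥ 1`.
-/

open Finset Pool.Agent.H51.Homog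

namespace Pool.Agent.Results.MP_3713ea_co.TopRegion

lemma add_latin (m : ℕ) : IsLatin (fun x y : Fin m → ZMod 2 => x + y) :=
  ⟨fun r => (Equiv.addLeft r).bijective, fun c => (Equiv.addRight c).bijective⟩

lemma add_intercalates (m : ℕ) (r c : Fin m → ZMod 2) :
    intercalatesAt (fun x y : Fin m → ZMod 2 => x + y) r c + 1 = 2 ^ m := by
  classical
  have h1 := intercalatesAt_eq (add_latin m) r c
  have h2 : badc (col (add_latin m)) c r = ∅ := by
    rw [eq_empty_iff_forall_notMem]
    intro e he
    simp only [badc, mem_filter, mem_univ, true_and] at he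
    apply he
    rw [Gd_iff_cg (add_latin m) c e |>.2 ?_ r |> iff_true_intro]
    · trivial
    · intro a b h
      have h' : a + c = b + e := h
      show a + e = b + c
      have hb : ∀ z : Fin m → ZMod 2, z + z = 0 := fun z => by
        ext j; exact CharTwo.add_self_eq_zero _
      calc a + e = (a + c) + (c + e) := by rw [add_assoc, ← add_assoc c c e, hb c, zero_add]
        _ = (b + e) + (c + e) := by rw [h']
        _ = b + c + (e + e) := by abel
        _ = b + c := by rw [hb e, add_zero]
  have h3 : Fintype.card (Fin m → ZMod 2) = 2 ^ m := by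
    rw [Fintype.card_fun, ZMod.card, Fintype.card_fin]
  rw [h2, h3] at h1
  simpa using h1

/-- Determination of the pairs `(n, k)` with `8 (k - 1) ≤ n`. -/
theorem result (n k : ℕ) (hn : 1 ≤ n) (hk : 1 ≤ k) (hkn : k ≤ n) (h8 : 8 * (k - 1) ≤ n) :
    (∃ L : Fin n → Fin n → Fin n, IsLatin L ∧ IsHomogeneous (n - k) L) ↔
      (k = 1 ∧ ∃ m : ℕ, n = 2 ^ m) ∨ (∃ i : ℕ, 1 ≤ i ∧ k = 2 ^ i + 1 ∧ n = 8 * 2 ^ i) := by
  constructor
  · rintro ⟨L, hL, hh⟩
    have : Nonempty (Fin n) := ⟨⟨0, hn⟩⟩
    rcases Nat.lt_or_ge (8 * (k - 1)) n with h | h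
    · left
      have h1 : ∀ r c, intercalatesAt L r c + 1 = Fintype.card (Fin n) := by
        apply many_intercalates hL (k := k) (by rwa [Fintype.card_fin])
        intro r c
        rw [Fintype.card_fin, hh r c]
        omega
      obtain ⟨m, hm⟩ := card_pow_two hL h1
      rw [Fintype.card_fin] at hm
      refine ⟨?_, m, hm⟩
      have h2 := h1 ⟨0, hn⟩ ⟨0, hn⟩
      rw [hh, Fintype.card_fin] at h2
      omega
    · right
      obtain ⟨i, hi, hd⟩ := equality_case hL (d := k - 1) (by omega)
        (by rw [Fintype.card_fin]; omega) (fun r c => by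
          rw [hh r c, Fintype.card_fin]; omega)
      exact ⟨i, hi, by omega, by omega⟩
  · rintro (⟨rfl, m, rfl⟩ | ⟨i, hi, rfl, rfl⟩)
    · let e : (Fin m → ZMod 2) ≃ Fin (2 ^ m) := Fintype.equivFinOfCardEq (by
        rw [Fintype.card_fun, ZMod.card, Fintype.card_fin])
      refine ⟨_, relabel_latin e (add_latin m), fun r c => ?_⟩
      rw [relabel_intercalates]
      exact Nat.eq_sub_of_add_eq (add_intercalates m (e.symm r) (e.symm c))
    · obtain ⟨j, rfl⟩ : ∃ j, i = j + 1 := ⟨i - 1, by omega⟩
      obtain ⟨L, hL, hh⟩ := exists_example j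
      have e1 : 16 * 2 ^ j = 8 * 2 ^ (j + 1) := by rw [pow_succ]; ring
      rw [← e1]
      refine ⟨L, hL, fun r c => ?_⟩
      have h1 := hh r c
      have e2 : 2 ^ (j + 1) = 2 * 2 ^ j := by rw [pow_succ]; ring
      omega

end Pool.Agent.Results.MP_3713ea_co.TopRegion
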