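import Pool.Agent.H15.HLU.Main

/-!
# Homogeneous latin squares of all orders which are large compared with the homogeneity

The definitions (`IsLatin`, `intercalatesAt`, `IsHomogeneous`) are in `Pool.Agent.H51.Homog.Defs`.

If an `h`-homogeneous latin square of order `n` exists then `4 ∣ n ^ 2 * h`; and there is an
absolute constant `A` such that for all `h` and all `n ≥ (h + 2) ^ A` with `4 ∣ n ^ 2 * h` an
`h`-homogeneous latin square of order `n` exists.
-/

open Pool.Agent.H51.Homog Pool.Agent.H22.HSQ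

namespace Pool.Agent.Results.MP_3713ea_co.UniformRange

theorem result :
    (∀ h n : ℕ, (∃ L : Fin n → Fin n → Fin n, IsLatin L ∧ IsHomogeneous h L) →
      4 ∣ n ^ 2 * h) ∧
    ∃ A : ℕ, ∀ h n : ℕ, (h + 2) ^ A ≤ n → 4 ∣ n ^ 2 * h →
      ∃ L : Fin n → Fin n → Fin n, IsLatin L ∧ IsHomogeneous h L := by
  refine ⟨fun h n H => four_dvd_of_isOrder H, ?_⟩
  obtain ⟨A, hA⟩ := Pool.Agent.H15.HLU.hlu_main
  refine ⟨2 * A, fun h n hn hd => (hA h n ?_).2 hd⟩
  refine le_trans ?_ hn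
  have h1 : A ≤ 2 ^ A := Nat.lt_two_pow_self.le
  have h2 : 2 ^ A ≤ (h + 2) ^ A := Nat.pow_le_pow_left (by omega) A
  have h3 : (h + 1) ^ A ≤ (h + 2) ^ A := Nat.pow_le_pow_left (by omega) A
  calc A * (h + 1) ^ A ≤ (h + 2) ^ A * (h + 2) ^ A := Nat.mul_le_mul (h1.trans h2) h3
    _ = (h + 2) ^ (2 * A) := by rw [two_mul, pow_add]

end Pool.Agent.Results.MP_3713ea_co.UniformRange
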